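import Pool.Agent.W423.NT.Defs

set_option autoImplicit false

/-! Project NT, part GEN: generation in bounded degree. -/

namespace Pool.Agent.W346.NT

open MvPolynomial Pool.Agent.W423.NT Pool.Agent.W423.MG
open Pool.Agent.W425.ND (Gen spa Hul SupH)

variable {d r N P : ℕ} {R : Type} [CommRing R]

/-- the `x` part of an exponent -/
noncomputable def cx (c : Fin (P+1+N) →₀ ℕ) : Fin N →₀ ℕ :=
  Finsupp.equivFunOnFinite.symm fun i => c (Fin.natAdd (P+1) i)

/-- the `y` part of an exponent -/
def cy (c : Fin (P+1+N) →₀ ℕ) : Fin (P+1) → ℕ := fun k => c (Fin.castAdd N k)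

/-- joined exponent -/
noncomputable def jn (μ : Fin (P+1) → ℕ) (c : Fin N →₀ ℕ) : Fin (P+1+N) →₀ ℕ :=
  Finsupp.equivFunOnFinite.symm (Fin.append μ c)

/-- exponent from a function -/
noncomputable def ex {n : ℕ} (v : Fin n → ℕ) : Fin n →₀ ℕ := Finsupp.equivFunOnFinite.symm v

lemma ex_apply {n : ℕ} (v : Fin n → ℕ) (i : Fin n) : ex v i = v i := rfl

lemma cx_jn (μ : Fin (P+1) → ℕ) (c : Fin N →₀ ℕ) : cx (jn μ c) = c := by
  ext i
  simp [cx, jn]

lemma cy_jn (μ : Fin (P+1) → ℕ) (c : Fin N →₀ ℕ) : cy (jn μ c) = μ := by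
  funext i
  simp [cy, jn]

lemma cx_add (c c' : Fin (P+1+N) →₀ ℕ) : cx (c + c') = cx c + cx c' := by
  ext i
  simp [cx]

lemma cy_add (c c' : Fin (P+1+N) →₀ ℕ) : cy (c + c') = cy c + cy c' := by
  funext i
  simp [cy]

lemma cx_cay (g : Fin r → Fin (P+1)) (v : Fin r → Fin N → ℕ) (j : Fin r) :
    cx (ex (cay g v j)) = ex (v j) := by
  ext i
  simp [cx, ex, cay]

lemma cy_cay (g : Fin r → Fin (P+1)) (v : Fin r → Fin N → ℕ) (j : Fin r) :
    cy (ex (cay g v j)) = Pi.single (g j) 1 := by
  funext k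
  simp only [cy, ex, cay, Finsupp.equivFunOnFinite_symm_apply_apply, Fin.append_left,
    Pi.single_apply]
  by_cases h : g j = k
  · rw [if_pos h, if_pos h.symm]
  · rw [if_neg h, if_neg (Ne.symm h)]

lemma prod_ex {n : ℕ} (v : Fin n → ℕ) (t : R) :
    C t * ∏ i, (X i : MvPolynomial (Fin n) R) ^ v i = monomial (ex v) t := by
  rw [monomial_eq, Finsupp.prod_fintype _ _ (fun i => pow_zero _)]
  rfl

/-- scalars act through constants -/
@[reducible] noncomputable def modR : Module R (FnQ d N R) :=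
  Module.compHom (FnQ d N R) (C : R →+* MvPolynomial (Fin d ⊕ Fin N) R)

attribute [local instance] modR

lemma smulR (t : R) (u : FnQ d N R) :
    t • u = (C t : MvPolynomial (Fin d ⊕ Fin N) R) • u := rfl

lemma comm_smul (t : R) (q : MvPolynomial (Fin d ⊕ Fin N) R) (u : FnQ d N R) :
    q • t • u = t • q • u := by
  rw [smulR, smulR, smul_smul, smul_smul, mul_comm]

/-- `brkQ` as a linear map -/
noncomputable def bl (M : Fin (P+1) → Fin d → ℕ) (G : Fin (P+1) → MvPolynomial (Fin N) R)
    (μ : Fin (P+1) → ℕ) : MvPolynomial (Fin N) R →ₗ[R] FnQ d N R where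
  toFun p := brkQ M G p μ
  map_add' p q := by
    funext n e
    rw [addQ_apply]
    simp only [brkQ]
    rw [add_mul, add_mul, coeff_add]
  map_smul' t p := by
    funext n e
    rw [RingHom.id_apply, smulR, smulQ_apply, eval_C]
    simp only [brkQ]
    rw [smul_mul_assoc, smul_mul_assoc, coeff_smul, smul_eq_mul]

lemma bl_apply (M : Fin (P+1) → Fin d → ℕ) (G : Fin (P+1) → MvPolynomial (Fin N) R)
    (μ : Fin (P+1) → ℕ) (p : MvPolynomial (Fin N) R) : bl M G μ p = brkQ M G p μ := rfl

/-- basic sequences -/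
noncomputable def bb (M : Fin (P+1) → Fin d → ℕ) (G : Fin (P+1) → MvPolynomial (Fin N) R)
    (μ : Fin (P+1) → ℕ) (c : Fin N →₀ ℕ) : FnQ d N R := brkQ M G (monomial c 1) μ

lemma bl_mono (M : Fin (P+1) → Fin d → ℕ) (G : Fin (P+1) → MvPolynomial (Fin N) R)
    (μ : Fin (P+1) → ℕ) (c : Fin N →₀ ℕ) (t : R) : bl M G μ (monomial c t) = t • bb M G μ c := by
  have : (monomial c t : MvPolynomial (Fin N) R) = t • monomial c 1 := by
    rw [smul_monomial, smul_eq_mul, mul_one]
  rw [this, map_smul]
  rfl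

/-- the Cayley version -/
noncomputable def bc (M : Fin (P+1) → Fin d → ℕ) (G : Fin (P+1) → MvPolynomial (Fin N) R) :
    MvPolynomial (Fin (P+1+N)) R →ₗ[R] FnQ d N R :=
  (basisMonomials (Fin (P+1+N)) R).constr R fun c => bb M G (cy c) (cx c)

lemma bc_mono (M : Fin (P+1) → Fin d → ℕ) (G : Fin (P+1) → MvPolynomial (Fin N) R)
    (c : Fin (P+1+N) →₀ ℕ) (t : R) :
    bc M G (monomial c t) = t • bb M G (cy c) (cx c) := by
  have : (monomial c t : MvPolynomial (Fin (P+1+N)) R) =
      t • basisMonomials (Fin (P+1+N)) R c := by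
    rw [coe_basisMonomials, smul_monomial, smul_eq_mul, mul_one]
  rw [this, map_smul, bc, Module.Basis.constr_basis]

/-- the operators -/
noncomputable def op (M : Fin (P+1) → Fin d → ℕ) (i : Fin (P+1+N)) :
    MvPolynomial (Fin d ⊕ Fin N) R :=
  Fin.addCases (fun k => linQ M k) (fun i => X (Sum.inr i)) i

lemma spa_eq (g : Fin r → Fin (P+1)) (v : Fin r → Fin N → ℕ) (a : Fin r → R) :
    spa (cay g v) a = ∑ j, monomial (ex (cay g v j)) (a j) := by
  unfold spa
  exact Finset.sum_congr rfl fun j _ => prod_ex _ _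

lemma polyR_eq (g : Fin r → Fin (P+1)) (v : Fin r → Fin N → ℕ) (a : Fin r → R)
    (k : Fin (P+1)) :
    polyR g v a k = ∑ j, if g j = k then monomial (ex (v j)) (a j) else 0 := by
  unfold polyR
  exact Finset.sum_congr rfl fun j _ => by rw [prod_ex]

lemma euler_spa (g : Fin r → Fin (P+1)) (v : Fin r → Fin N → ℕ) (a : Fin r → R)
    (i : Fin (P+1+N)) :
    X i * pderiv i (spa (cay g v) a) =
      ∑ j, monomial (ex (cay g v j)) ((cay g v j i : R) * a j) := by
  rw [spa_eq, map_sum, Finset.mul_sum]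
  refine Finset.sum_congr rfl fun j _ => ?_
  rw [X_mul_pderiv_monomial, ex_apply, ← Nat.cast_smul_eq_nsmul R, smul_monomial, smul_eq_mul]

lemma euler_polyR (g : Fin r → Fin (P+1)) (v : Fin r → Fin N → ℕ) (a : Fin r → R)
    (k : Fin (P+1)) (i : Fin N) :
    X i * pderiv i (polyR g v a k) =
      ∑ j, if g j = k then monomial (ex (v j)) ((v j i : R) * a j) else 0 := by
  rw [polyR_eq, map_sum, Finset.mul_sum]
  refine Finset.sum_congr rfl fun j _ => ?_
  split_ifs
  · rw [X_mul_pderiv_monomial, ex_apply, ← Nat.cast_smul_eq_nsmul R, smul_monomial, smul_eq_mul]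
  · rw [map_zero, mul_zero]

lemma rule_mono (hB : TaskBRKQ) (M : Fin (P+1) → Fin d → ℕ) (g : Fin r → Fin (P+1))
    (v : Fin r → Fin N → ℕ) (a : Fin r → R) (c : Fin (P+1+N) →₀ ℕ) (i : Fin (P+1+N)) :
    (op M i : MvPolynomial (Fin d ⊕ Fin N) R) • bb M (polyR g v a) (cy c) (cx c) =
      (c i : R) • bb M (polyR g v a) (cy c) (cx c) +
      ∑ j, ((cay g v j i : R) * a j) •
        bb M (polyR g v a) (cy c + Pi.single (g j) 1) (cx c + ex (v j)) := by
  obtain ⟨-, -, hF, hX, -, -⟩ := hB
  set G := polyR g v a with hG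
  induction i using Fin.addCases with
  | left k =>
    have h1 := hF d N P R M G (monomial (cx c) 1) (cy c) k
    have h2 : (op M (Fin.castAdd N k) : MvPolynomial (Fin d ⊕ Fin N) R) = linQ M k := by
      simp [op]
    rw [h2]
    have h3 : (linQ M k : MvPolynomial (Fin d ⊕ Fin N) R) • bb M G (cy c) (cx c) =
        (cy c k : R) • bb M G (cy c) (cx c) +
          brkQ M G (monomial (cx c) 1 * G k) (cy c + Pi.single k 1) := by
      rw [h1, sub_smul, smulR]
      unfold bb
      abel
    rw [h3]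
    congr 1
    rw [← bl_apply, hG, polyR_eq, Finset.mul_sum, map_sum]
    refine Finset.sum_congr rfl fun j _ => ?_
    have h4 : cay g v j (Fin.castAdd N k) = if g j = k then 1 else 0 := by
      simp [cay]
    rw [h4]
    by_cases h : g j = k
    · subst h
      rw [if_pos rfl, if_pos rfl, monomial_mul, bl_mono]
      simp
    · rw [if_neg h, if_neg h, mul_zero, map_zero]
      simp
  | right l =>
    have h1 := hX d N P R M G (monomial (cx c) 1) (cy c) l
    have h2 : (op M (Fin.natAdd (P+1) l) : MvPolynomial (Fin d ⊕ Fin N) R) = X (Sum.inr l) := by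
      simp [op]
    rw [h2]
    refine h1.trans ?_
    congr 1
    · rw [X_mul_pderiv_monomial, ← Nat.cast_smul_eq_nsmul R, smul_monomial, ← bl_apply, bl_mono,
        smul_eq_mul, mul_one]
      rfl
    · have h3 : ∀ k, brkQ M G (monomial (cx c) 1 * (X l * pderiv l (G k)))
          (cy c + Pi.single k 1) = ∑ j, if g j = k then ((v j l : R) * a j) •
            bb M G (cy c + Pi.single (g j) 1) (cx c + ex (v j)) else 0 := by
        intro k
        rw [← bl_apply, hG, euler_polyR, Finset.mul_sum, map_sum]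
        refine Finset.sum_congr rfl fun j _ => ?_
        by_cases h : g j = k
        · subst h
          rw [if_pos rfl, if_pos rfl, monomial_mul, bl_mono, one_mul]
        · rw [if_neg h, if_neg h, mul_zero, map_zero]
      rw [Finset.sum_congr rfl fun k _ => h3 k, Finset.sum_comm]
      refine Finset.sum_congr rfl fun j _ => ?_
      rw [Finset.sum_ite_eq, if_pos (Finset.mem_univ _)]
      have h4 : cay g v j (Fin.natAdd (P+1) l) = v j l := by
        simp [cay]
      rw [h4]

lemma rule (hB : TaskBRKQ) (M : Fin (P+1) → Fin d → ℕ) (g : Fin r → Fin (P+1))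
    (v : Fin r → Fin N → ℕ) (a : Fin r → R) (i : Fin (P+1+N))
    (p : MvPolynomial (Fin (P+1+N)) R) :
    (op M i : MvPolynomial (Fin d ⊕ Fin N) R) • bc M (polyR g v a) p =
      bc M (polyR g v a) (X i * pderiv i p) +
      bc M (polyR g v a) (p * (X i * pderiv i (spa (cay g v) a))) := by
  induction p using MvPolynomial.induction_on' with
  | monomial c t =>
    rw [bc_mono, comm_smul, rule_mono hB, X_mul_pderiv_monomial, ← Nat.cast_smul_eq_nsmul R,
      smul_monomial, bc_mono, euler_spa, Finset.mul_sum, map_sum, smul_add, smul_smul,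
      smul_eq_mul, Finset.smul_sum]
    congr 1
    · rw [mul_comm]
    · refine Finset.sum_congr rfl fun j _ => ?_
      rw [monomial_mul, bc_mono, smul_smul, cy_add, cx_add, cx_cay, cy_cay]
  | add p q hp hq =>
    rw [map_add, smul_add, hp, hq, map_add, mul_add, map_add, add_mul, map_add]
    abel

lemma hul_iff (g : Fin r → Fin (P+1)) (v : Fin r → Fin N → ℕ) (m : ℕ)
    (c : Fin (P+1+N) →₀ ℕ) : Hul (cay g v) m c ↔ ∑ k, cy c k = m ∧ HulC g v (cy c) (cx c) := by
  have key : ∀ l : Fin r → ℝ, (∀ i, ∑ j, l j * (cay g v j i : ℝ) = (c i : ℝ)) ↔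
      (∀ k, gs g l k = (cy c k : ℝ)) ∧ ∀ i, ∑ j, l j * (v j i : ℝ) = (cx c i : ℝ) := by
    intro l
    constructor
    · intro h
      refine ⟨fun k => ?_, fun i => ?_⟩
      · have := h (Fin.castAdd N k)
        rw [cy, ← this, gs]
        refine Finset.sum_congr rfl fun j _ => ?_
        simp [cay]
      · have := h (Fin.natAdd (P+1) i)
        have e : (cx c i : ℝ) = (c (Fin.natAdd (P+1) i) : ℝ) := rfl
        rw [e, ← this]
        refine Finset.sum_congr rfl fun j _ => ?_
        simp [cay]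
    · rintro ⟨h1, h2⟩ i
      induction i using Fin.addCases with
      | left k =>
        have := h1 k
        rw [cy] at this
        rw [← this, gs]
        refine Finset.sum_congr rfl fun j _ => ?_
        simp [cay]
      | right l =>
        have := h2 l
        have e : (cx c l : ℝ) = (c (Fin.natAdd (P+1) l) : ℝ) := rfl
        rw [e] at this
        rw [← this]
        refine Finset.sum_congr rfl fun j _ => ?_
        simp [cay]
  constructor
  · rintro ⟨l, h0, h1, h2⟩
    obtain ⟨h3, h4⟩ := (key l).1 h2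
    refine ⟨?_, l, h0, h3, h4⟩
    have h5 : (∑ k, (cy c k : ℝ)) = (m : ℝ) := by
      rw [← h1, ← sum_gs g l]
      exact Finset.sum_congr rfl fun k _ => (h3 k).symm
    exact_mod_cast h5
  · rintro ⟨h5, l, h0, h3, h4⟩
    refine ⟨l, h0, ?_, (key l).2 ⟨h3, h4⟩⟩
    rw [← sum_gs g l, Finset.sum_congr rfl fun k _ => h3 k]
    exact_mod_cast h5

lemma supH_eul {n : ℕ} {v : Fin r → Fin n → ℕ} {m : ℕ} {p : MvPolynomial (Fin n) R}
    (h : SupH v m p) (i : Fin n) : SupH v m (X i * pderiv i p) := by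
  classical
  intro c hc
  apply h c
  intro h0
  apply hc
  have : ∀ p : MvPolynomial (Fin n) R, coeff c (X i * pderiv i p) = (c i : R) * coeff c p := by
    intro p
    induction p using MvPolynomial.induction_on' with
    | monomial e t =>
      rw [X_mul_pderiv_monomial, ← Nat.cast_smul_eq_nsmul R, coeff_smul, coeff_monomial]
      split_ifs with h1
      · rw [h1, smul_eq_mul]
      · rw [smul_zero, mul_zero]
    | add p q hp hq => rw [map_add, mul_add, coeff_add, hp, hq, coeff_add, mul_add]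
  rw [this, h0, mul_zero]

/-- the generators -/
noncomputable def gen (M : Fin (P+1) → Fin d → ℕ) (g : Fin r → Fin (P+1)) (v : Fin r → Fin N → ℕ)
    (a : Fin r → R) (K : ℕ) : Submodule (MvPolynomial (Fin d ⊕ Fin N) R) (FnQ d N R) :=
  Submodule.span (MvPolynomial (Fin d ⊕ Fin N) R)
    {u : FnQ d N R | ∃ (μ' : Fin (P+1) → ℕ) (c' : Fin N →₀ ℕ), ∑ k, μ' k ≤ K ∧
      HulC g v μ' c' ∧ u = brkQ M (polyR g v a) (monomial c' 1) μ'}

lemma spa_euler (g : Fin r → Fin (P+1)) (v : Fin r → Fin N → ℕ) (a : Fin r → R) :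
    spa (cay g v) a = ∑ k : Fin (P+1), X (Fin.castAdd N k) *
      pderiv (Fin.castAdd N k) (spa (cay g v) a) := by
  have h : ∀ k : Fin (P+1), X (Fin.castAdd N k) * pderiv (Fin.castAdd N k) (spa (cay g v) a) =
      ∑ j, if g j = k then monomial (ex (cay g v j)) (a j) else 0 := by
    intro k
    rw [euler_spa]
    refine Finset.sum_congr rfl fun j _ => ?_
    have h4 : cay g v j (Fin.castAdd N k) = if g j = k then 1 else 0 := by
      simp [cay]
    rw [h4]
    split_ifs
    · rw [Nat.cast_one, one_mul]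
    · rw [Nat.cast_zero, zero_mul, map_zero]
  rw [Finset.sum_congr rfl fun k _ => h k, Finset.sum_comm, spa_eq]
  refine Finset.sum_congr rfl fun j _ => ?_
  rw [Finset.sum_ite_eq, if_pos (Finset.mem_univ _)]

lemma bc_mem (hB : TaskBRKQ) (M : Fin (P+1) → Fin d → ℕ) (g : Fin r → Fin (P+1))
    (v : Fin r → Fin N → ℕ) (a : Fin r → R) (K : ℕ)
    (hgen : Gen (cay g v) (spa (cay g v) a) K) (m : ℕ) :
    ∀ p : MvPolynomial (Fin (P+1+N)) R, SupH (cay g v) m p →
      bc M (polyR g v a) p ∈ gen M g v a K := by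
  classical
  have hmono : ∀ m, (∀ c, Hul (cay g v) m c → bc M (polyR g v a) (monomial c 1) ∈
      gen M g v a K) → ∀ p : MvPolynomial (Fin (P+1+N)) R, SupH (cay g v) m p →
      bc M (polyR g v a) p ∈ gen M g v a K := by
    intro m hm p hp
    rw [p.as_sum, map_sum]
    refine sum_mem fun c hc => ?_
    have : (monomial c (coeff c p) : MvPolynomial (Fin (P+1+N)) R) =
        coeff c p • monomial c 1 := by
      rw [smul_monomial, smul_eq_mul, mul_one]
    rw [this, map_smul, smulR]
    exact Submodule.smul_mem _ _ (hm c (hp c (mem_support_iff.1 hc)))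
  have hsmall : ∀ m, m ≤ K → ∀ c, Hul (cay g v) m c →
      bc M (polyR g v a) (monomial c 1) ∈ gen M g v a K := by
    intro m hm c hc
    obtain ⟨h1, h2⟩ := (hul_iff g v m c).1 hc
    rw [bc_mono, one_smul]
    exact Submodule.subset_span ⟨cy c, cx c, h1.le.trans hm, h2, rfl⟩
  induction m with
  | zero => exact hmono 0 (hsmall 0 (Nat.zero_le _))
  | succ m ih =>
    apply hmono
    intro c hc
    rcases le_or_gt (m + 1) K with hK | hK
    · exact hsmall (m + 1) hK c hc
    · obtain ⟨p0, p, hp0, hp, he⟩ := hgen m (by omega) c hc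
      have hterm : ∀ (q : MvPolynomial (Fin (P+1+N)) R) (i : Fin (P+1+N)), SupH (cay g v) m q →
          bc M (polyR g v a) (q * (X i * pderiv i (spa (cay g v) a))) ∈ gen M g v a K := by
        intro q i hq
        have h1 := rule hB M g v a i q
        have h2 : bc M (polyR g v a) (q * (X i * pderiv i (spa (cay g v) a))) =
            (op M i : MvPolynomial (Fin d ⊕ Fin N) R) • bc M (polyR g v a) q -
              bc M (polyR g v a) (X i * pderiv i q) := by
          rw [h1]; abel
        rw [h2]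
        exact sub_mem (Submodule.smul_mem _ _ (ih q hq)) (ih _ (supH_eul hq i))
      rw [he, map_add]
      refine add_mem ?_ ?_
      · have h3 : p0 * spa (cay g v) a = ∑ k : Fin (P+1), p0 * (X (Fin.castAdd N k) *
            pderiv (Fin.castAdd N k) (spa (cay g v) a)) := by
          rw [← Finset.mul_sum, ← spa_euler]
        rw [h3, map_sum]
        exact sum_mem fun k _ => hterm p0 _ hp0
      · rw [map_sum]
        exact sum_mem fun i _ => hterm (p i) i (hp i)

theorem genq : TaskGENQ := by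
  intro hB d r N P R _ M g v a K hgen μ p hp
  classical
  show brkQ M (polyR g v a) p μ ∈ gen M g v a K
  rw [← bl_apply, p.as_sum, map_sum]
  refine sum_mem fun c hc => ?_
  rw [bl_mono, smulR]
  refine Submodule.smul_mem _ _ ?_
  have h1 : bb M (polyR g v a) μ c = bc M (polyR g v a) (monomial (jn μ c) 1) := by
    rw [bc_mono, one_smul, cx_jn, cy_jn]
  rw [h1]
  refine bc_mem hB M g v a K hgen (∑ k, μ k) _ ?_
  intro c' hc'
  rw [coeff_monomial] at hc'
  have h2 : jn μ c = c' := by
    by_contra h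
    rw [if_neg h] at hc'
    exact hc' rfl
  rw [← h2, hul_iff, cx_jn, cy_jn]
  exact ⟨rfl, hp c (mem_support_iff.1 hc)⟩

end Pool.Agent.W346.NT
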