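import Pool.Agent.W423.NT.Defs

set_option autoImplicit false

/-! Project NT, part REP1: closure properties of `IsRepQ`. Adapted from `Pool.Agent.W340.ND.Rep1`
(helper340). -/

namespace Pool.Agent.W346.NT

open MvPolynomial Pool.Agent.W423.NT
open Pool.Agent.W425.ND (tr)

variable {d N P : ℕ} {R : Type} [CommRing R] {M : Fin (P+1) → Fin d → ℕ}
  {G : Fin (P+1) → MvPolynomial (Fin N) R}

/-- the point `n` -/
noncomputable def pn (N : ℕ) (R : Type) [CommRing R] (n : Fin d → ℕ) (t : Fin d) : MvPolynomial (Fin N) R :=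
  ((n t : ℕ) : MvPolynomial (Fin N) R)

/-- the linear form -/
noncomputable def nu (N : ℕ) (R : Type) [CommRing R] (M : Fin (P+1) → Fin d → ℕ)
    (k : Fin (P+1)) : MvPolynomial (Fin d) (MvPolynomial (Fin N) R) :=
  ∑ t, C ((M k t : ℕ) : MvPolynomial (Fin N) R) * X t

lemma eval_nu (n : Fin d → ℕ) (k : Fin (P+1)) :
    eval (pn N R n) (nu N R M k) = ((SM M n k : ℕ) : MvPolynomial (Fin N) R) := by
  unfold nu SM pn
  rw [map_sum, Nat.cast_sum]
  refine Finset.sum_congr rfl fun t _ => ?_
  rw [map_mul, eval_C, eval_X, Nat.cast_mul]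

lemma eval_dp (n : Fin d → ℕ) (k : Fin (P+1)) (m : ℕ) :
    eval (pn N R n) (Polynomial.aeval (nu N R M k)
      (descPochhammer (MvPolynomial (Fin N) R) m)) =
      (((SM M n k).descFactorial m : ℕ) : MvPolynomial (Fin N) R) := by
  rw [Polynomial.aeval_def, Polynomial.hom_eval₂, eval_nu]
  have : (eval (pn N R n)).comp (algebraMap (MvPolynomial (Fin N) R)
      (MvPolynomial (Fin d) (MvPolynomial (Fin N) R))) = RingHom.id _ := by
    ext x
    · simp
    · simp
  rw [this, Polynomial.eval₂_id, descPochhammer_eval_eq_descFactorial]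

lemma rep_brk (p : MvPolynomial (Fin N) R) (μ : Fin (P+1) → ℕ) :
    IsRepQ M G (brkQ M G p μ) := by
  have hL : ∀ k, μ k ≤ ∑ l, μ l := fun k =>
    Finset.single_le_sum (f := μ) (fun _ _ => Nat.zero_le _) (Finset.mem_univ k)
  refine ⟨∑ l, μ l, C p * ∏ k, (Polynomial.aeval (nu N R M k)
      (descPochhammer (MvPolynomial (Fin N) R) (μ k)) * C (G k ^ ((∑ l, μ l) - μ k))),
    fun n => p * ((∏ k, (SM M n k).descFactorial (μ k) : ℕ) : MvPolynomial (Fin N) R) *
      ∏ k, G k ^ (SM M n k - μ k), fun n e => rfl, fun n => ?_⟩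
  have h1 : eval (fun t => ((n t : ℕ) : MvPolynomial (Fin N) R))
      (C p * ∏ k, (Polynomial.aeval (nu N R M k)
      (descPochhammer (MvPolynomial (Fin N) R) (μ k)) * C (G k ^ ((∑ l, μ l) - μ k)))) =
      p * ∏ k, ((((SM M n k).descFactorial (μ k) : ℕ) : MvPolynomial (Fin N) R) *
        G k ^ ((∑ l, μ l) - μ k)) := by
    rw [map_mul, eval_C, map_prod]
    congr 1
    refine Finset.prod_congr rfl fun k _ => ?_
    rw [map_mul, eval_C]
    congr 1
    exact eval_dp n k (μ k)
  rw [h1]
  have h2 : (∏ k, G k ^ (∑ l, μ l)) *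
      (((∏ k, (SM M n k).descFactorial (μ k) : ℕ) : MvPolynomial (Fin N) R) *
      ∏ k, G k ^ (SM M n k - μ k)) =
      (∏ k, ((((SM M n k).descFactorial (μ k) : ℕ) : MvPolynomial (Fin N) R) *
        G k ^ ((∑ l, μ l) - μ k))) * ∏ k, G k ^ SM M n k := by
    rw [Nat.cast_prod, ← Finset.prod_mul_distrib, ← Finset.prod_mul_distrib,
      ← Finset.prod_mul_distrib]
    refine Finset.prod_congr rfl fun k _ => ?_
    rcases le_or_gt (μ k) (SM M n k) with h | h
    · have e1 : G k ^ SM M n k = G k ^ μ k * G k ^ (SM M n k - μ k) := by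
        rw [← pow_add, Nat.add_sub_cancel' h]
      have e2 : G k ^ (∑ l, μ l) = G k ^ μ k * G k ^ ((∑ l, μ l) - μ k) := by
        rw [← pow_add, Nat.add_sub_cancel' (hL k)]
      rw [e1, e2]
      ring
    · rw [Nat.descFactorial_of_lt h, Nat.cast_zero]
      ring
  linear_combination p * h2

lemma rep_add {u w : FnQ d N R} (hu : IsRepQ M G u) (hw : IsRepQ M G w) :
    IsRepQ M G (u + w) := by
  obtain ⟨L, q, U, h1, h2⟩ := hu
  obtain ⟨L', q', U', h1', h2'⟩ := hw
  refine ⟨L + L', q * C (∏ k, G k ^ L') + q' * C (∏ k, G k ^ L), fun n => U n + U' n,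
    fun n e => ?_, fun n => ?_⟩
  · rw [addQ_apply, h1, h1', coeff_add]
  · have e : (∏ k, G k ^ (L + L')) = (∏ k, G k ^ L) * ∏ k, G k ^ L' := by
      rw [← Finset.prod_mul_distrib]
      exact Finset.prod_congr rfl fun k _ => pow_add _ _ _
    rw [map_add, map_mul, map_mul, eval_C, eval_C, e]
    linear_combination (∏ k, G k ^ L') * h2 n + (∏ k, G k ^ L) * h2' n

lemma SM_add (K : ℕ) (n : Fin d → ℕ) (k : Fin (P+1)) :
    SM M (fun t => n t + K) k = SM M n k + rowM M k * K := by
  unfold SM rowM
  rw [Finset.sum_mul, ← Finset.sum_add_distrib]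
  exact Finset.sum_congr rfl fun t _ => by ring

lemma rep_sh (K : ℕ) {u : FnQ d N R} (hu : IsRepQ M G u) : IsRepQ M G (shQ K u) := by
  obtain ⟨L, q, U, h1, h2⟩ := hu
  refine ⟨L, aeval (fun t => X t + C ((K : ℕ) : MvPolynomial (Fin N) R)) q *
    C (∏ k, G k ^ (rowM M k * K)), fun n => U (fun t => n t + K), fun n e => ?_, fun n => ?_⟩
  · exact h1 _ _
  · have e0 := h2 (fun t => n t + K)
    have e1 : (∏ k, G k ^ SM M (fun t => n t + K) k) =
        (∏ k, G k ^ SM M n k) * ∏ k, G k ^ (rowM M k * K) := by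
      rw [← Finset.prod_mul_distrib]
      exact Finset.prod_congr rfl fun k _ => by rw [SM_add, pow_add]
    have e2 : eval (fun t => ((n t : ℕ) : MvPolynomial (Fin N) R))
        (aeval (fun t => X t + C ((K : ℕ) : MvPolynomial (Fin N) R)) q) =
        eval (fun t => (((n t + K : ℕ)) : MvPolynomial (Fin N) R)) q := by
      rw [← MvPolynomial.coe_aeval_eq_eval, ← MvPolynomial.coe_aeval_eq_eval]
      show (aeval _) ((aeval _) q) = aeval _ q
      rw [← AlgHom.comp_apply]
      congr 1
      ext t
      simp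
    rw [e1] at e0
    show (∏ k, G k ^ L) * U (fun t => n t + K) = _
    rw [e0, map_mul, eval_C, e2]
    ring

lemma rep_C (t : R) {u : FnQ d N R} (hu : IsRepQ M G u) :
    IsRepQ M G ((C t : MvPolynomial (Fin d ⊕ Fin N) R) • u) := by
  obtain ⟨L, q, U, h1, h2⟩ := hu
  refine ⟨L, C (C t) * q, fun n => C t * U n, fun n e => ?_, fun n => ?_⟩
  · rw [smulQ_apply, eval_C, h1, coeff_C_mul]
  · rw [map_mul, eval_C]
    linear_combination (C t : MvPolynomial (Fin N) R) * h2 n

lemma rep_s (t : Fin d) {u : FnQ d N R} (hu : IsRepQ M G u) :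
    IsRepQ M G ((X (Sum.inl t) : MvPolynomial (Fin d ⊕ Fin N) R) • u) := by
  obtain ⟨L, q, U, h1, h2⟩ := hu
  refine ⟨L, X t * q, fun n => C (n t : R) * U n, fun n e => ?_, fun n => ?_⟩
  · rw [smulQ_apply, eval_X, h1, coeff_C_mul]
    rfl
  · rw [map_mul, eval_X]
    have : (C (n t : R) : MvPolynomial (Fin N) R) = ((n t : ℕ) : MvPolynomial (Fin N) R) := by
      simp
    simp only [this]
    linear_combination (n t : MvPolynomial (Fin N) R) * h2 n

/-- derivative of sequences -/
noncomputable def dd {d : ℕ} (i : Fin N) (v : FnQ d N R) : FnQ d N R := fun s e =>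
  ((e i : R) + 1) * v s (e + Finsupp.single i 1)

/-- multiplication by a variable -/
noncomputable def mx {d : ℕ} (i : Fin N) (v : FnQ d N R) : FnQ d N R := fun s e =>
  if e i = 0 then 0 else v s (e - Finsupp.single i 1)

lemma coeff_pd (i : Fin N) (g : MvPolynomial (Fin N) R) (e : Fin N →₀ ℕ) :
    coeff e (pderiv i g) = ((e i : R) + 1) * coeff (e + Finsupp.single i 1) g := by
  induction g using MvPolynomial.induction_on' with
  | monomial c a =>
    rw [pderiv_monomial, coeff_monomial, coeff_monomial]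
    by_cases hc : c = e + Finsupp.single i 1
    · subst hc
      have h1 : e + Finsupp.single i 1 - Finsupp.single i 1 = e := by simp
      rw [h1, if_pos rfl, if_pos rfl]
      simp
      ring
    · rw [if_neg hc, mul_zero]
      split_ifs with h
      · have : c i = 0 := by
          by_contra h0
          apply hc
          rw [← h]
          ext j
          by_cases hj : j = i
          · subst hj
            simp
            omega
          · simp [Ne.symm hj]
        rw [this]
        simp
      · rfl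
  | add p q hp hq =>
    rw [map_add, coeff_add, coeff_add, hp, hq, mul_add]

lemma pderiv_eval (i : Fin N) (q : MvPolynomial (Fin d) (MvPolynomial (Fin N) R)) :
    ∃ q' : MvPolynomial (Fin d) (MvPolynomial (Fin N) R), ∀ n : Fin d → ℕ,
      pderiv i (eval (fun t => ((n t : ℕ) : MvPolynomial (Fin N) R)) q) =
        eval (fun t => ((n t : ℕ) : MvPolynomial (Fin N) R)) q' := by
  induction q using MvPolynomial.induction_on with
  | C a => exact ⟨C (pderiv i a), fun n => by rw [eval_C, eval_C]⟩
  | add p q hp hq =>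
    obtain ⟨p', hp⟩ := hp
    obtain ⟨q', hq⟩ := hq
    refine ⟨p' + q', fun n => ?_⟩
    rw [map_add, map_add, map_add, hp, hq]
  | mul_X p t hp =>
    obtain ⟨p', hp⟩ := hp
    refine ⟨p' * X t, fun n => ?_⟩
    rw [(eval _).map_mul, (eval _).map_mul, eval_X, Derivation.leibniz, hp,
      Derivation.map_natCast, smul_zero, zero_add, smul_eq_mul]
    ring

lemma pow_pred (f : MvPolynomial (Fin N) R) (n : ℕ) :
    (n : MvPolynomial (Fin N) R) * (f ^ (n - 1) * f) = (n : MvPolynomial (Fin N) R) * f ^ n := by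
  rcases Nat.eq_zero_or_pos n with h | h
  · subst h; simp
  · rw [← pow_succ, Nat.sub_add_cancel h]

lemma ex_D (M : Fin (P+1) → Fin d → ℕ) (G : Fin (P+1) → MvPolynomial (Fin N) R) (i : Fin N)
    (S : Finset (Fin (P+1))) :
    ∃ D : MvPolynomial (Fin d) (MvPolynomial (Fin N) R), ∀ n : Fin d → ℕ,
      (∏ k ∈ S, G k) * pderiv i (∏ k ∈ S, G k ^ SM M n k) =
        eval (fun t => ((n t : ℕ) : MvPolynomial (Fin N) R)) D * ∏ k ∈ S, G k ^ SM M n k := by
  classical
  induction S using Finset.induction_on with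
  | empty =>
    refine ⟨0, fun n => ?_⟩
    rw [Finset.prod_empty, Finset.prod_empty, pderiv_one, map_zero]
    ring
  | insert k S hk ih =>
    obtain ⟨D, hD⟩ := ih
    refine ⟨D * C (G k) + nu N R M k * C (pderiv i (G k) * ∏ k ∈ S, G k), fun n => ?_⟩
    rw [Finset.prod_insert hk, Finset.prod_insert hk, Derivation.leibniz, Derivation.leibniz_pow]
    have e1 := eval_nu (M := M) (N := N) (R := R) n k
    have e2 : eval (fun t => ((n t : ℕ) : MvPolynomial (Fin N) R))
        (D * C (G k) + nu N R M k * C (pderiv i (G k) * ∏ k ∈ S, G k)) =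
        eval (fun t => ((n t : ℕ) : MvPolynomial (Fin N) R)) D * G k +
          ((SM M n k : ℕ) : MvPolynomial (Fin N) R) * (pderiv i (G k) * ∏ k ∈ S, G k) := by
      rw [map_add, map_mul, map_mul, eval_C, eval_C]
      congr 2
    rw [e2]
    have e3 := pow_pred (G k) (SM M n k)
    have e4 := hD n
    simp only [smul_eq_mul, nsmul_eq_mul]
    linear_combination G k * G k ^ SM M n k * e4 +
      (∏ k ∈ S, G k) * (∏ k ∈ S, G k ^ SM M n k) * pderiv i (G k) * e3

lemma rep_dd (i : Fin N) {u : FnQ d N R} (hu : IsRepQ M G u) : IsRepQ M G (dd i u) := by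
  obtain ⟨L, q, U, h1, h2⟩ := hu
  obtain ⟨q', hq'⟩ := pderiv_eval i q
  obtain ⟨D, hD⟩ := ex_D M G i Finset.univ
  refine ⟨L + 1, C (∏ k, G k) * q' + D * q -
    C ((L : MvPolynomial (Fin N) R) * pderiv i (∏ k, G k)) * q,
    fun n => pderiv i (U n), fun n e => ?_, fun n => ?_⟩
  · rw [coeff_pd, dd, h1]
  · have h3 := congrArg (pderiv i) (h2 n)
    have h4 := h2 n
    have h5 := hD n
    rw [Finset.prod_pow] at h3 h4 ⊢
    rw [Derivation.leibniz, Derivation.leibniz, Derivation.leibniz_pow, hq'] at h3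
    simp only [smul_eq_mul, nsmul_eq_mul] at h3
    rw [map_sub, map_add, map_mul, map_mul, map_mul, eval_C, eval_C]
    have e3 := pow_pred (∏ k, G k) L
    set Γ := ∏ k, G k with hΓ
    set E := ∏ k, G k ^ SM M n k with hE
    linear_combination Γ * h3 +
      eval (fun t => ((n t : ℕ) : MvPolynomial (Fin N) R)) q * h5
      - U n * pderiv i Γ * e3 - (L : MvPolynomial (Fin N) R) * pderiv i Γ * h4

lemma rep_mx (i : Fin N) {u : FnQ d N R} (hu : IsRepQ M G u) : IsRepQ M G (mx i u) := by
  obtain ⟨L, q, U, h1, h2⟩ := hu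
  refine ⟨L, C (X i) * q, fun n => X i * U n, fun n e => ?_, fun n => ?_⟩
  · rw [coeff_X_mul', mx]
    by_cases h : e i = 0
    · rw [if_pos h, if_neg (by simpa using h)]
    · rw [if_neg h, if_pos (by simpa using h), h1]
  · rw [map_mul, eval_C]
    linear_combination (X i : MvPolynomial (Fin N) R) * h2 n

lemma rep_X (o : Fin d ⊕ Fin N) {u : FnQ d N R} (hu : IsRepQ M G u) :
    IsRepQ M G ((X o : MvPolynomial (Fin d ⊕ Fin N) R) • u) := by
  cases o with
  | inl t => exact rep_s t hu
  | inr i =>
    have : (X (Sum.inr i) : MvPolynomial (Fin d ⊕ Fin N) R) • u = mx i (dd i u) := by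
      funext s e
      rw [smulQ_apply, eval_X, mx]
      show ((e i : ℕ) : R) * u s e = _
      split_ifs with h
      · rw [h]; simp
      · have h2 : e - Finsupp.single i 1 + Finsupp.single i 1 = e := by
          ext j
          by_cases hj : j = i
          · subst hj
            simp
            omega
          · simp [Ne.symm hj]
        have h3 : (e - Finsupp.single i 1 : Fin N →₀ ℕ) i + 1 = e i := by
          simp
          omega
        rw [dd, h2, ← Nat.cast_succ, Nat.succ_eq_add_one, h3]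
    rw [this]
    exact rep_mx i (rep_dd i hu)

lemma rep_smul (F : MvPolynomial (Fin d ⊕ Fin N) R) : ∀ u : FnQ d N R, IsRepQ M G u →
    IsRepQ M G (F • u) := by
  induction F using MvPolynomial.induction_on with
  | C a => exact fun u hu => rep_C a hu
  | add p q hp hq =>
    intro u hu
    rw [add_smul]
    exact rep_add (hp u hu) (hq u hu)
  | mul_X p o hp =>
    intro u hu
    rw [mul_smul]
    exact hp _ (rep_X o hu)

lemma low_zero (u : FnQ d N R) : lowQ (fun _ => 0) u = u := by
  funext s e
  have : tr (fun _ => 0) e = e := by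
    ext i
    simp [tr]
  simp [lowQ, this]

lemma low_pos (δ : Fin N → ℤ) (i : Fin N) (hi : 0 < δ i) (u : FnQ d N R) :
    lowQ δ u = dd i (lowQ (Function.update δ i (δ i - 1)) u) := by
  funext s e
  set δ' := Function.update δ i (δ i - 1) with hδ'
  have hi' : δ' i = δ i - 1 := by simp [hδ']
  have hj' : ∀ j, j ≠ i → δ' j = δ j := fun j hj => by simp [hδ', hj]
  have key : ∀ j, (((e + Finsupp.single i 1 : Fin N →₀ ℕ) j : ℕ) : ℤ) + δ' j = (e j : ℤ) + δ j := by
    intro j
    by_cases hj : j = i
    · subst hj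
      rw [hi']
      simp
    · rw [hj' j hj]
      simp [Ne.symm hj]
  have htr : tr δ' (e + Finsupp.single i 1) = tr δ e := by
    ext j
    simp only [tr, Finsupp.equivFunOnFinite_symm_apply_apply]
    rw [key]
  unfold lowQ dd
  simp only [key, htr]
  by_cases h : ∀ j, 0 ≤ (e j : ℤ) + δ j
  · rw [if_pos h, if_pos h, ← mul_assoc]
    congr 1
    have hprod : (∏ j, ((e j : ℤ) + δ j).toNat.descFactorial (δ j).toNat) =
        (e i + 1) * ∏ j, ((e j : ℤ) + δ j).toNat.descFactorial (δ' j).toNat := by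
      rw [← Finset.mul_prod_erase _ _ (Finset.mem_univ i),
        ← Finset.mul_prod_erase _ (fun j => ((e j : ℤ) + δ j).toNat.descFactorial (δ' j).toNat)
          (Finset.mem_univ i), ← mul_assoc]
      congr 1
      · have h1 : (δ i).toNat = (δ' i).toNat + 1 := by
          rw [hi']; omega
        rw [h1, Nat.descFactorial_succ]
        congr 1
        rw [hi']
        have := h i
        omega
      · refine Finset.prod_congr rfl fun j hj => ?_
        rw [hj' j (Finset.ne_of_mem_erase hj)]
    rw [hprod]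
    push_cast
    ring
  · rw [if_neg h, if_neg h, mul_zero]

lemma low_neg (δ : Fin N → ℤ) (i : Fin N) (hi : δ i < 0) (u : FnQ d N R) :
    lowQ δ u = mx i (lowQ (Function.update δ i (δ i + 1)) u) := by
  funext s e
  set δ' := Function.update δ i (δ i + 1) with hδ'
  have hi' : δ' i = δ i + 1 := by simp [hδ']
  have hj' : ∀ j, j ≠ i → δ' j = δ j := fun j hj => by simp [hδ', hj]
  by_cases h0 : e i = 0
  · rw [mx, if_pos h0, lowQ, if_neg]
    intro h
    have := h i
    rw [h0] at this
    simp at this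
    omega
  have key : ∀ j, (((e - Finsupp.single i 1 : Fin N →₀ ℕ) j : ℕ) : ℤ) + δ' j = (e j : ℤ) + δ j := by
    intro j
    by_cases hj : j = i
    · subst hj
      rw [hi']
      simp
      omega
    · rw [hj' j hj]
      simp [Ne.symm hj]
  have htr : tr δ' (e - Finsupp.single i 1) = tr δ e := by
    ext j
    simp only [tr, Finsupp.equivFunOnFinite_symm_apply_apply]
    rw [key]
  rw [mx, if_neg h0]
  unfold lowQ
  simp only [key, htr]
  by_cases h : ∀ j, 0 ≤ (e j : ℤ) + δ j
  · rw [if_pos h, if_pos h]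
    congr 2
    refine Finset.prod_congr rfl fun j _ => ?_
    by_cases hj : j = i
    · subst hj
      rw [hi']
      have h1 : (δ j).toNat = 0 := by omega
      have h2 : (δ j + 1).toNat = 0 := by omega
      rw [h1, h2]
    · rw [hj' j hj]
  · rw [if_neg h, if_neg h]

lemma rep_low_aux (n : ℕ) : ∀ δ : Fin N → ℤ, ∑ i, (δ i).natAbs = n → ∀ u : FnQ d N R,
    IsRepQ M G u → IsRepQ M G (lowQ δ u) := by
  induction n with
  | zero =>
    intro δ hδ u hu
    have : δ = fun _ => 0 := by
      funext i
      rw [Finset.sum_eq_zero_iff] at hδ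
      exact Int.natAbs_eq_zero.1 (hδ i (Finset.mem_univ i))
    rw [this, low_zero]
    exact hu
  | succ n ih =>
    intro δ hδ u hu
    have : ∃ i, δ i ≠ 0 := by
      by_contra h
      push Not at h
      simp [h] at hδ
    obtain ⟨i, hi⟩ := this
    have hsum : ∀ a : ℤ, a.natAbs + 1 = (δ i).natAbs →
        ∑ j, (Function.update δ i a j).natAbs = n := by
      intro a ha
      have h1 := Finset.add_sum_erase Finset.univ (fun j => (δ j).natAbs) (Finset.mem_univ i)
      have h2 := Finset.add_sum_erase Finset.univ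
        (fun j => (Function.update δ i a j).natAbs) (Finset.mem_univ i)
      have h3 : ∑ j ∈ Finset.univ.erase i, (Function.update δ i a j).natAbs =
          ∑ j ∈ Finset.univ.erase i, (δ j).natAbs := by
        refine Finset.sum_congr rfl fun j hj => ?_
        rw [Function.update_of_ne (Finset.ne_of_mem_erase hj)]
      simp only [Function.update_self] at h2
      rw [h3] at h2
      omega
    rcases lt_or_gt_of_ne hi with h | h
    · rw [low_neg δ i h]
      exact rep_mx i (ih _ (hsum _ (by omega)) u hu)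
    · rw [low_pos δ i h]
      exact rep_dd i (ih _ (hsum _ (by omega)) u hu)

theorem rep1q : TaskREP1Q := by
  intro d N P R _ M G
  exact ⟨rep_brk, fun u w hu hw => rep_add hu hw, fun P u hu => rep_smul P u hu,
    fun δ u hu => rep_low_aux _ δ rfl u hu, fun L u hu => rep_sh L hu⟩

end Pool.Agent.W346.NT
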